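import Mathlib
import Pool.Agent.H.MP_21b6c8_co.Code

set_option autoImplicit false

namespace Pool.Agent.H.MP_96bab1_co
open Finset Filter Pool.Agent.H.MP_21b6c8_co

/-- few words have few coordinates with a collision -/
def Sparse {ι α : Type} (j M : ℕ) (C : Finset (ι → α)) : Prop :=
  ∀ W ⊆ C, W.card ≤ M → ∀ I : Finset ι, (∀ i ∈ I, ∃ x ∈ W, ∃ y ∈ W, x ≠ y ∧ x i = y i) →
    I.card ≤ j * (W.card - 1)

theorem exists_rho' (m j l : ℕ) (I : Finset (Fin l)) (x y : Fin l → Fin (m + 1)) :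
    ∃ (ρ : Fin l → Option (Fin j) → ℤ) (S : Finset (Fin l)),
      (m * j < I.card → S.Nonempty) ∧ S ⊆ I ∧ ∀ (d : ℕ)
      (a : Fin (m + 1) → Option (Fin j) → Fin d → ℤ),
      (∀ v w, ∑ s, a v none s ^ 2 = ∑ s, a w none s ^ 2) →
      (∀ e ∈ S, ∀ s, ∑ c, ρ e c * (a (x e) c s - a (y e) c s) = 0) →
      ∀ e ∈ S, a (x e) = a (y e) := by
  classical
  by_cases h : m * j < I.card
  · obtain ⟨ρ, S, hS, hρ⟩ := exists_rho (E := I) (K := Fin j) m (fun e => x e) (fun e => y e)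
      (by simpa using h)
    refine ⟨fun e => if he : e ∈ I then ρ ⟨e, he⟩ else 0, S.image Subtype.val,
      fun _ => hS.image _, fun e he => ?_, fun d a ha he e he' => ?_⟩
    · obtain ⟨e', -, rfl⟩ := mem_image.1 he
      exact e'.2
    · obtain ⟨e', he'', rfl⟩ := mem_image.1 he'
      refine hρ d a ha (fun e1 he1 s => ?_) e' he''
      simpa using he e1.1 (mem_image_of_mem _ he1) s
  · exact ⟨0, ∅, fun h' => absurd h' h, empty_subset _, by simp⟩

theorem exists_sparse (M j l : ℕ) (hM : 1 ≤ M) (h : j < l) : ∃ T c : ℕ, ∀ D d N q : ℕ,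
    1 ≤ d → 1 ≤ N → (2 * c * N + 1) ^ (d * (D + 1) ^ T) ≤ q → ∃ C : Finset (Fin l → Fin q),
      Sparse j M C ∧ ((N : ℝ) ^ d / (d * N ^ 2)) ^ ((j + 1) * D ^ T) ≤ C.card := by
  classical
  let H := Σ m : Fin (M + 1), Finset (Fin l) × (Fin l → Fin (m + 1) × Fin (m + 1))
  have hLA := fun g : H => exists_rho' g.1 j l g.2.1 (fun i => (g.2.2 i).1) (fun i => (g.2.2 i).2)
  choose ρ S hS hSI hρ using hLA
  refine ⟨Fintype.card H, ∑ i, ∑ g, ∑ c, (ρ g i c).natAbs, fun D d N q hd hN hq => ?_⟩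
  set c : ℕ := ∑ i, ∑ g, ∑ c, (ρ g i c).natAbs with hc
  obtain ⟨k, hk⟩ := Behrend.exists_large_sphere d N
  set B := Behrend.sphere d N k with hB
  have hpos : (0 : ℝ) < (N : ℝ) ^ d / (d * N ^ 2) := by positivity
  have hk' : (N : ℝ) ^ d / (d * N ^ 2) ≤ B.card := by exact_mod_cast hk
  obtain ⟨s0, h0⟩ : B.Nonempty := card_pos.1 (by exact_mod_cast hpos.trans_le hk')
  have hBm : ∀ b ∈ B, (∀ s, b s < N) ∧ ∑ s, b s ^ 2 = k := fun b hb =>
    ⟨Behrend.mem_box.1 (mem_filter.1 hb).1, (mem_filter.1 hb).2⟩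
  set W := words H (Option (Fin j)) D B s0 with hW
  let A : Finset ((H → Fin (D + 1)) → Fin d → ℤ) :=
    Fintype.piFinset fun _ => Fintype.piFinset fun _ => Icc (-((c : ℤ) * N)) (c * N)
  have hA : A.card ≤ q := by
    refine le_trans (le_of_eq ?_) hq
    simp only [A, Fintype.card_piFinset, prod_const, card_univ, Int.card_Icc, Fintype.card_fin,
      Fintype.card_fun, ← pow_mul]
    congr 1
    have : (c : ℤ) * N + 1 - -((c : ℤ) * N) = ((2 * c * N + 1 : ℕ) : ℤ) := by push_cast; ring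
    rw [this, Int.toNat_natCast]
  obtain ⟨emb⟩ := Function.Embedding.nonempty_of_card_le (α := A) (β := Fin q)
    (by simpa using hA)
  have hsA : ∀ (w : W) (i : Fin l), sym ρ w.1 i ∈ A := by
    intro w i
    refine Fintype.mem_piFinset.2 fun y => Fintype.mem_piFinset.2 fun s => ?_
    rw [mem_Icc, ← abs_le]
    exact sym_bound ρ w.1 (fun z c s => (hBm _ (words_mem h0 w.2 z c)).1 s) i y s
  let Ψ : W → Fin l → Fin q := fun w i => emb ⟨sym ρ w.1 i, hsA w i⟩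
  have key : ∀ (m : ℕ) (hm : m < M + 1) (I : Finset (Fin l)) (a : Fin (m + 1) → W)
      (x y : Fin l → Fin (m + 1)), m * j < I.card →
      (∀ i ∈ I, Ψ (a (x i)) i = Ψ (a (y i)) i) → ∃ i ∈ I, a (x i) = a (y i) := by
    intro m hm I a x y hI hxy
    let g : H := ⟨⟨m, hm⟩, I, fun i => (x i, y i)⟩
    obtain ⟨e, he⟩ := hS g hI
    refine ⟨e, hSI g he, Subtype.ext ?_⟩
    refine key_step h0 ρ g (S g) x y (fun b hb hb' => ?_)
      (fun v => (a v).1) (fun v => (a v).2)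
      (fun e he => congrArg Subtype.val (emb.injective (hxy e (hSI g he)))) e he
    intro e' he'
    have := hρ g d (fun v c s => (b v c s : ℤ)) (fun v w => by
      have h1 := (hBm _ (hb v none)).2
      have h2 := (hBm _ (hb w none)).2
      exact_mod_cast h1.trans h2.symm) hb' e' he'
    funext c s
    exact_mod_cast congrFun (congrFun this c) s
  have hinj : Function.Injective Ψ := by
    intro w w' hw
    obtain ⟨i, -, hi⟩ := key 1 (by omega) univ (fun v => if v = 0 then w else w') (fun _ => 0)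
      (fun _ => 1) (by simpa using h) (fun i _ => by simp [hw])
    simpa using hi
  refine ⟨univ.image Ψ, fun U hU hUM I hI => ?_, ?_⟩
  · by_contra hlt
    obtain ⟨i0, hi0⟩ : I.Nonempty := card_pos.1 (by omega)
    obtain ⟨x0, hx0, -⟩ := hI i0 hi0
    have hUc : 1 ≤ U.card := card_pos.2 ⟨x0, hx0⟩
    have hcol : ∀ i, ∃ y y' : U, i ∈ I → y ≠ y' ∧ y.1 i = y'.1 i := by
      intro i
      by_cases hi : i ∈ I
      · obtain ⟨x, hx, y, hy, h1, h2⟩ := hI i hi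
        exact ⟨⟨x, hx⟩, ⟨y, hy⟩, fun _ => ⟨fun h => h1 (congrArg Subtype.val h), h2⟩⟩
      · exact ⟨⟨x0, hx0⟩, ⟨x0, hx0⟩, fun h => absurd h hi⟩
    choose y y' hy using hcol
    obtain ⟨eqv⟩ : Nonempty (U ≃ Fin (U.card - 1 + 1)) :=
      ⟨Fintype.equivFinOfCardEq (by simp only [Fintype.card_coe]; omega)⟩
    have : ∀ v : U, ∃ w, Ψ w = v.1 := fun v => by simpa using hU v.2
    choose w hw using this
    obtain ⟨i, hi, hi'⟩ := key (U.card - 1) (by omega) I (fun v => w (eqv.symm v))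
      (fun i => eqv (y i)) (fun i => eqv (y' i)) (by rw [mul_comm]; omega)
      (fun i hi => by simp only [Equiv.symm_apply_apply, hw]; exact (hy i hi).2)
    simp only [Equiv.symm_apply_apply] at hi'
    exact (hy i hi).1 (Subtype.ext (by rw [← hw, ← hw, hi']))
  · rw [card_image_of_injective _ hinj, card_univ, Fintype.card_coe, hW, card_words]
    push_cast
    simp only [Fintype.card_option, Fintype.card_fin]
    exact pow_le_pow_left₀ hpos.le hk' _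

theorem exists_par (T J : ℕ) (ε : ℝ) (hε : 0 < ε) : ∃ n : ℕ, 3 ≤ n ∧
    ((n * (n + 1) ^ T : ℕ) : ℝ) * (J - ε) < ((J * n ^ T : ℕ) : ℝ) * ((n : ℝ) - 2) := by
  have h1 : Tendsto (fun n : ℕ => (1 + 1 / (n : ℝ)) ^ T * (J - ε) - J * (1 - 2 * (1 / (n : ℝ))))
      atTop (nhds ((1 + 0) ^ T * (J - ε) - J * (1 - 2 * 0))) :=
    (((tendsto_one_div_atTop_nhds_zero_nat.const_add 1).pow T).mul_const _).sub
      (((tendsto_one_div_atTop_nhds_zero_nat.const_mul 2).const_sub 1).const_mul _)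
  have h2 := h1.eventually_lt_const (u := 0) (by simp; linarith)
  obtain ⟨n, hn, h3⟩ := (h2.and (eventually_ge_atTop 3)).exists
  refine ⟨n, h3, ?_⟩
  have hn0 : (0 : ℝ) < n := by exact_mod_cast (by omega : 0 < n)
  have h4 := mul_neg_of_pos_of_neg (mul_pos hn0 (pow_pos hn0 T)) hn
  have h5 : (n : ℝ) ^ T * (1 + 1 / (n : ℝ)) ^ T = (n + 1) ^ T := by
    rw [← mul_pow]
    congr 1
    field_simp
  have h6 : (n : ℝ) * (1 - 2 * (1 / (n : ℝ))) = n - 2 := by field_simp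
  push_cast
  rw [← h5, ← h6]
  linarith

theorem asym (T c J : ℕ) (hc : 1 ≤ c) (ε : ℝ) (hε : 0 < ε) (hJ : ε ≤ J) : ∃ n Q : ℕ, 1 ≤ n ∧
    ∀ q : ℕ, Q ≤ q → ∃ N : ℕ, 1 ≤ N ∧ (2 * c * N + 1) ^ (n * (n + 1) ^ T) ≤ q ∧
      (q : ℝ) ^ ((J : ℝ) - ε) < ((N : ℝ) ^ n / (n * N ^ 2)) ^ (J * n ^ T) := by
  obtain ⟨n, hn, h⟩ := exists_par T J ε hε
  set M := n * (n + 1) ^ T with hM
  set L := J * n ^ T with hL
  have hM1 : M ≠ 0 := by positivity
  have hθ : 0 < (L : ℝ) * ((n : ℝ) - 2) - M * (J - ε) := by linarith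
  have h1 := ((tendsto_rpow_atTop hθ).comp tendsto_natCast_atTop_atTop).eventually_gt_atTop
    (((4 * c + 1 : ℝ)) ^ ((M : ℝ) * (J - ε)) * n ^ L)
  obtain ⟨N0, hN0⟩ := eventually_atTop.1 h1
  refine ⟨n, (2 * c * (N0 + 1) + 1) ^ M, by omega, fun q hq => ?_⟩
  have hex : ∃ N, q < (2 * c * (N + 1) + 1) ^ M :=
    ⟨q, lt_of_lt_of_le (by nlinarith) (Nat.le_self_pow hM1 _)⟩
  have h2 := Nat.find_spec hex
  have h3 : N0 < Nat.find hex := by
    by_contra h'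
    have : (2 * c * (Nat.find hex + 1) + 1) ^ M ≤ (2 * c * (N0 + 1) + 1) ^ M := by
      have := not_lt.1 h'
      gcongr
    omega
  have h4 := Nat.find_min hex (m := Nat.find hex - 1) (by omega)
  set N := Nat.find hex with hN
  rw [show N - 1 + 1 = N by omega] at h4
  refine ⟨N, by omega, not_lt.1 h4, ?_⟩
  have hN1 : (1 : ℝ) ≤ N := by exact_mod_cast (by omega : 1 ≤ N)
  have hNp : (0 : ℝ) < N := by linarith
  have hn0 : (0 : ℝ) < n := by exact_mod_cast (by omega : 0 < n)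
  have h5 : (q : ℝ) ≤ ((4 * c + 1) * N) ^ M := by
    have h6 : (q : ℝ) ≤ (2 * c * (N + 1) + 1) ^ M := by exact_mod_cast h2.le
    refine h6.trans (pow_le_pow_left₀ (by positivity) ?_ _)
    have : (0 : ℝ) ≤ c := Nat.cast_nonneg _
    nlinarith
  have hE : (0 : ℝ) ≤ J - ε := by linarith
  have h7 : (q : ℝ) ^ ((J : ℝ) - ε)
      ≤ (4 * c + 1 : ℝ) ^ ((M : ℝ) * (J - ε)) * (N : ℝ) ^ ((M : ℝ) * (J - ε)) := by
    refine (Real.rpow_le_rpow (Nat.cast_nonneg _) h5 hE).trans (le_of_eq ?_)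
    rw [← Real.rpow_natCast, ← Real.rpow_mul (by positivity),
      Real.mul_rpow (by positivity) hNp.le]
  have h8 : ((N : ℝ) ^ n / (n * N ^ 2)) ^ L
      = (N : ℝ) ^ ((L : ℝ) * ((n : ℝ) - 2) - M * (J - ε)) * (N : ℝ) ^ ((M : ℝ) * (J - ε))
        / n ^ L := by
    rw [← Real.rpow_add hNp, sub_add_cancel, mul_comm (L : ℝ), Real.rpow_mul hNp.le,
      Real.rpow_natCast, ← div_pow, Real.rpow_sub hNp, Real.rpow_natCast, Real.rpow_two]
    congr 1
    field_simp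
  have h9 := hN0 N h3.le
  simp only [Function.comp] at h9
  rw [h8, lt_div_iff₀ (by positivity)]
  have h10 : (0 : ℝ) < (N : ℝ) ^ ((M : ℝ) * (J - ε)) := by positivity
  calc (q : ℝ) ^ ((J : ℝ) - ε) * n ^ L
      ≤ (4 * c + 1 : ℝ) ^ ((M : ℝ) * (J - ε)) * (N : ℝ) ^ ((M : ℝ) * (J - ε)) * n ^ L := by
        gcongr
    _ = ((4 * c + 1 : ℝ) ^ ((M : ℝ) * (J - ε)) * n ^ L) * (N : ℝ) ^ ((M : ℝ) * (J - ε)) := by
        ring
    _ < _ := by gcongr

theorem sparse_large (M j l : ℕ) (hM : 1 ≤ M) (h : j < l) (ε : ℝ) (hε : 0 < ε) (hε1 : ε ≤ 1) :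
    ∃ Q : ℕ, ∀ q : ℕ, Q ≤ q → ∃ C : Finset (Fin l → Fin q), Sparse j M C ∧
      (q : ℝ) ^ (((j + 1 : ℕ) : ℝ) - ε) < C.card := by
  obtain ⟨T, c, hTc⟩ := exists_sparse M j l hM h
  obtain ⟨n, Q, hn, hQ⟩ := asym T (c + 1) (j + 1) (by omega) ε hε
    (hε1.trans (by push_cast; linarith [(Nat.cast_nonneg j : (0 : ℝ) ≤ j)]))
  refine ⟨Q, fun q hq => ?_⟩
  obtain ⟨N, hN, h1, h2⟩ := hQ q hq
  obtain ⟨C, hC, h3⟩ := hTc n n N q hn hN (le_trans (by gcongr; omega) h1)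
  exact ⟨C, hC, h2.trans_le h3⟩

end Pool.Agent.H.MP_96bab1_co
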