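import Mathlib
import Pool.Agent.H.MP_96bab1_co.Sparse

set_option autoImplicit false

namespace Pool.Agent.H.MP_96bab1_co
open Finset Filter

theorem group_bound {ι α : Type} [DecidableEq (ι → α)] {j k κ : ℕ} {C : Finset (ι → α)}
    (hC : Sparse j (k + k * k) C) (G : Finset (ι → α)) (hGC : G ⊆ C) (hκ : G.card ≤ κ)
    (hκk : κ ≤ k) (Y : (ι → α) → Finset (ι → α))
    (hY : ∀ c ∈ G, Y c ⊆ C ∧ (Y c).card ≤ κ ∧ c ∉ Y c) (d : ι → α) (I : Finset ι)
    (hI : ∀ i ∈ I, (∃ c ∈ G, c i = d i) ∧ ∀ c ∈ G, ∃ y ∈ Y c, y i = d i) :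
    2 * (I.card : ℤ) ≤ j * (G.card * (2 * κ + 1 - G.card)) := by
  rcases G.eq_empty_or_nonempty with rfl | ⟨c0, hc0⟩
  · have : I = ∅ := eq_empty_of_forall_notMem fun i hi => by simpa using (hI i hi).1
    simp [this]
  obtain ⟨T, ⟨hT1, hT2⟩, hmin⟩ := (InvImage.wf Finset.card Nat.lt_wfRel.wf).has_min
    {T | T ⊆ G ∧ ∀ c ∈ G, ∃ b ∈ T, c ∉ Y b} ⟨G, subset_rfl, fun c hc => ⟨c, hc, (hY c hc).2.2⟩⟩
  have hz : ∀ b, ∃ c, b ∈ T → c ∈ G ∧ ∀ b' ∈ T, b' ≠ b → c ∈ Y b' := by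
    intro b
    by_cases hb : b ∈ T
    · by_contra h
      refine hmin (T.erase b) ⟨(erase_subset _ _).trans hT1, fun c hc => ?_⟩
        (card_erase_lt_of_mem hb)
      by_contra h'
      refine h ⟨c, fun _ => ⟨hc, fun b' hb' hne => ?_⟩⟩
      by_contra h''
      exact h' ⟨b', mem_erase.2 ⟨hne, hb'⟩, h''⟩
    · exact ⟨b, fun h => absurd h hb⟩
  choose z hz using hz
  have hz2 : ∀ b ∈ T, z b ∉ Y b := by
    intro b hb h
    obtain ⟨b', hb', h'⟩ := hT2 (z b) (hz b hb).1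
    by_cases h1 : b' = b
    · exact h' (h1 ▸ h)
    · exact h' ((hz b hb).2 b' hb' h1)
  have hinj : Set.InjOn z T := by
    intro b hb b' hb' h
    by_contra hne
    exact hz2 b' hb' (h ▸ (hz b hb).2 b' hb' (Ne.symm hne))
  obtain ⟨b0, hb0, -⟩ := hT2 c0 hc0
  have ht : 1 ≤ T.card := card_pos.2 ⟨b0, hb0⟩
  have htg : T.card ≤ G.card := card_le_card hT1
  obtain ⟨r, hr⟩ : ∃ r, r + T.card = κ + 1 := ⟨κ + 1 - T.card, by omega⟩
  have h1 : ∀ b ∈ T, (Y b \ G).card ≤ r := by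
    intro b hb
    have h2 : ((T.erase b).image z).card = T.card - 1 := by
      rw [card_image_of_injOn (hinj.mono (by simp)), card_erase_of_mem hb]
    have h3 : (T.erase b).image z ⊆ Y b ∩ G := by
      intro c hc
      obtain ⟨b', hb', rfl⟩ := mem_image.1 hc
      obtain ⟨h4, h5⟩ := mem_erase.1 hb'
      exact mem_inter.2 ⟨(hz b' h5).2 b hb (Ne.symm h4), (hz b' h5).1⟩
    have h4 := card_le_card h3
    have h5 := card_sdiff_add_card_inter (Y b) G
    have h6 := (hY b (hT1 hb)).2.1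
    omega
  set W := G ∪ T.biUnion (fun b => Y b \ G) with hW
  have h8 : W.card ≤ G.card + T.card * r :=
    (card_union_le _ _).trans (Nat.add_le_add_left (card_biUnion_le_card_mul _ _ _ h1) _)
  have h9 := hC W (union_subset hGC (biUnion_subset.2 fun b hb =>
      sdiff_subset.trans (hY b (hT1 hb)).1))
    (h8.trans (Nat.add_le_add (by omega) (Nat.mul_le_mul (by omega) (by omega)))) I (by
      intro i hi
      obtain ⟨⟨c, hc, h2⟩, h3⟩ := hI i hi
      obtain ⟨b, hb, h4⟩ := hT2 c hc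
      obtain ⟨y, hy, h5⟩ := h3 b (hT1 hb)
      refine ⟨c, mem_union_left _ hc, y, ?_, fun h => h4 (h ▸ hy), h2.trans h5.symm⟩
      by_cases h6 : y ∈ G
      · exact mem_union_left _ h6
      · exact mem_union_right _ (mem_biUnion.2 ⟨b, hb, mem_sdiff.2 ⟨hy, h6⟩⟩))
  have h10 : W.card - 1 + 1 ≤ G.card + T.card * r := by
    have : 1 ≤ W.card := card_pos.2 ⟨c0, mem_union_left _ hc0⟩
    omega
  generalize W.card - 1 = w at h9 h10
  generalize T.card = a at *
  generalize G.card = g at *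
  have h11 : 2 * (w : ℤ) ≤ g * (2 * κ + 1 - g) := by
    have e1 : (r : ℤ) = κ + 1 - a := by omega
    have e2 : (w : ℤ) + 1 ≤ g + a * r := by exact_mod_cast h10
    have e3 : (0 : ℤ) ≤ (g - a) * (g - a - 1) := by
      rcases (by omega : (g : ℤ) - a = 0 ∨ 1 ≤ (g : ℤ) - a) with h | h
      · rw [h]; simp
      · exact mul_nonneg (by omega) (by omega)
    have e4 : (0 : ℤ) ≤ (a - 1) * (a - 2) := by
      rcases (by omega : (a : ℤ) - 1 = 0 ∨ 2 ≤ (a : ℤ)) with h | h
      · rw [h]; simp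
      · exact mul_nonneg (by omega) (by omega)
    have e5 : (0 : ℤ) ≤ (κ - g) * (g - a) := mul_nonneg (by omega) (by omega)
    rw [e1] at e2
    nlinarith
  have h12 : (I.card : ℤ) ≤ j * w := by exact_mod_cast h9
  have h13 := mul_le_mul_of_nonneg_left h11 (Nat.cast_nonneg (α := ℤ) j)
  linarith

/-- the data produced by a play against the greedy tracer -/
structure Play {l : ℕ} {α : Type} (k : ℕ) (C X : Finset (Fin l → α)) (d : Fin l → α)
    (g : ℕ → Finset (Fin l → α)) : Prop where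
  sub : X ⊆ C
  card : X.card ≤ k
  zero : g 0 = ∅
  mono : ∀ s t, s ≤ t → t ≤ l → g s ⊆ g t
  le : ∀ t, t ≤ l → g t ⊆ X
  cons : ∀ i : Fin l, ∃ x ∈ X, x ∉ g i ∧ x i = d i
  wit : ∀ t, t ≤ l → ∀ c ∈ C, c ∉ g t → ∃ Y ⊆ C, Y.card ≤ k ∧ g t ⊆ Y ∧ c ∉ Y ∧
    ∀ i : Fin l, i.val < t → ∃ y ∈ Y, y ∉ g i ∧ y i = d i

theorem play_sparse {l j k : ℕ} {α : Type} {C X : Finset (Fin l → α)} {d : Fin l → α}
    {g : ℕ → Finset (Fin l → α)} (P : Play k C X d g) (hC : Sparse j (k + k * k) C)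
    (hl : j * (k * (k + 1)) + 2 * k ≤ 2 * l) : X ⊆ g l := by
  classical
  let B : ℕ → Finset (Fin l) := fun t => univ.filter fun i => ∃ c ∈ g t, c ∉ g i ∧ c i = d i
  let I : ℕ → Finset (Fin l → α) → Finset (Fin l) := fun t G =>
    univ.filter fun i => i.val < t ∧ i ∉ B t ∧ ∃ c ∈ G, c i = d i
  have step : ∀ t, t ≤ l → ∀ Z, g t ⊆ Z → Z ⊆ X → 2 * ((I t (Z \ g t)).card : ℤ)
      ≤ j * (Z.card * (2 * k + 1 - Z.card) - (g t).card * (2 * k + 1 - (g t).card)) := by
    intro t ht Z hZ hZX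
    have hch : ∀ c, ∃ Y, c ∈ Z \ g t → Y ⊆ C ∧ Y.card ≤ k ∧ g t ⊆ Y ∧ c ∉ Y ∧
        ∀ i : Fin l, i.val < t → ∃ y ∈ Y, y ∉ g i ∧ y i = d i := by
      intro c
      by_cases hc : c ∈ Z \ g t
      · obtain ⟨Y, h⟩ := P.wit t ht c (P.sub (hZX (mem_sdiff.1 hc).1)) (mem_sdiff.1 hc).2
        exact ⟨Y, fun _ => h⟩
      · exact ⟨∅, fun h => absurd h hc⟩
    choose Y hY using hch
    have h1 := card_sdiff_add_card_eq_card hZ
    have h2 := (card_le_card hZX).trans P.card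
    have h3 := group_bound (κ := k - (g t).card) hC (Z \ g t)
      (sdiff_subset.trans (hZX.trans P.sub)) (by omega) (by omega) (fun c => Y c \ g t)
      (fun c hc => by
        obtain ⟨h4, h5, h6, h7, -⟩ := hY c hc
        have := card_sdiff_add_card_eq_card h6
        exact ⟨sdiff_subset.trans h4, by omega, fun h => h7 (mem_sdiff.1 h).1⟩) d (I t (Z \ g t))
      (fun i hi => by
        obtain ⟨h4, h5, h6⟩ := (mem_filter.1 hi).2
        refine ⟨h6, fun c hc => ?_⟩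
        obtain ⟨y, hy, h7, h8⟩ := (hY c hc).2.2.2.2 i h4
        exact ⟨y, mem_sdiff.2 ⟨hy, fun h => h5 (mem_filter.2 ⟨mem_univ _, y, h, h7, h8⟩)⟩, h8⟩)
    have h4 : ((k - (g t).card : ℕ) : ℤ) = k - (g t).card := by omega
    have h5 : (Z.card : ℤ) = (Z \ g t).card + (g t).card := by omega
    rw [h4] at h3
    rw [h5]
    refine h3.trans (le_of_eq ?_)
    ring
  have main : ∀ t, t ≤ l → 2 * ((B t).card : ℤ)
      ≤ j * ((g t).card * (2 * k + 1 - (g t).card)) + 2 * (g t).card := by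
    intro t
    induction t with
    | zero => simp [B, P.zero]
    | succ t ih =>
      intro ht
      have ih := ih (by omega)
      have hm := P.mono t (t + 1) (by omega) ht
      by_cases he : g (t + 1) = g t
      · simp only [B, he]
        exact ih
      have h1 : (g t).card < (g (t + 1)).card :=
        card_lt_card (Finset.ssubset_iff_subset_ne.2 ⟨hm, Ne.symm he⟩)
      have h2 := step t (by omega) _ hm (P.le _ ht)
      have h3 : B (t + 1) ⊆ insert ⟨t, by omega⟩ (B t ∪ I t (g (t + 1) \ g t)) := by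
        intro i hi
        obtain ⟨c, hc, h4, h5⟩ := (mem_filter.1 hi).2
        have h6 : i.val < t + 1 := by
          by_contra h
          exact h4 (P.mono _ _ (by omega) i.2.le hc)
        by_cases h7 : i.val = t
        · exact mem_insert.2 (Or.inl (Fin.ext h7))
        refine mem_insert_of_mem ?_
        by_cases h8 : i ∈ B t
        · exact mem_union_left _ h8
        · refine mem_union_right _ (mem_filter.2 ⟨mem_univ _, by omega, h8, c,
            mem_sdiff.2 ⟨hc, fun h => h8 (mem_filter.2 ⟨mem_univ _, c, h, h4, h5⟩)⟩, h5⟩)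
      have h4 := (card_le_card h3).trans (card_insert_le _ _)
      have h5 := card_union_le (B t) (I t (g (t + 1) \ g t))
      have h6 : ((B (t + 1)).card : ℤ) ≤ (B t).card + (I t (g (t + 1) \ g t)).card + 1 := by omega
      have h7 : ((g t).card : ℤ) + 1 ≤ (g (t + 1)).card := by omega
      linarith
  by_contra hne
  have h1 := main l le_rfl
  have h2 := step l le_rfl X (P.le l le_rfl) subset_rfl
  have h3 : (univ : Finset (Fin l)) ⊆ B l ∪ I l (X \ g l) := by
    intro i _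
    obtain ⟨c, hc, h4, h5⟩ := P.cons i
    by_cases h8 : i ∈ B l
    · exact mem_union_left _ h8
    · refine mem_union_right _ (mem_filter.2 ⟨mem_univ _, i.2, h8, c,
        mem_sdiff.2 ⟨hc, fun h => h8 (mem_filter.2 ⟨mem_univ _, c, h, h4, h5⟩)⟩, h5⟩)
  have h4 := (card_le_card h3).trans (card_union_le _ _)
  rw [card_univ, Fintype.card_fin] at h4
  have h5 : (g l).card < X.card :=
    card_lt_card (Finset.ssubset_iff_subset_ne.2 ⟨P.le l le_rfl, fun h => hne (h ▸ subset_rfl)⟩)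
  have h6 := P.card
  have h7 : (X.card : ℤ) * (2 * k + 1 - X.card) ≤ k * (k + 1) := by
    have : (0 : ℤ) ≤ (k - X.card) * (k + 1 - X.card) := mul_nonneg (by omega) (by omega)
    linarith
  have h8 := mul_le_mul_of_nonneg_left h7 (Nat.cast_nonneg (α := ℤ) j)
  have h9 : (j : ℤ) * (k * (k + 1)) + 2 * k ≤ 2 * l := by exact_mod_cast hl
  have h10 : (l : ℤ) ≤ (B l).card + (I l (X \ g l)).card := by omega
  have h11 : ((g l).card : ℤ) + 1 ≤ k := by omega
  linarith

/-- many coordinates separate a small set of words from a few further words -/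
def Sep {l : ℕ} {α : Type} (k : ℕ) (C : Finset (Fin l → α)) : Prop :=
  ∀ X ⊆ C, X.card ≤ k → ∀ W ⊆ C, W.card ≤ k * k → ∃ I : Finset (Fin l), k ≤ I.card ∧
    ∀ i ∈ I, ∀ x ∈ X, ∀ w ∈ W, w ≠ x → w i ≠ x i

theorem play_sep {l k : ℕ} {α : Type} {C X : Finset (Fin l → α)} {d : Fin l → α}
    {g : ℕ → Finset (Fin l → α)} (P : Play k C X d g) (hC : Sep k C) : X ⊆ g l := by
  classical
  by_contra hne
  let τ : (Fin l → α) → ℕ := fun x => Nat.findGreatest (fun t => x ∉ g t) l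
  have hch : ∀ c, ∃ Y, c ∈ X → Y ⊆ C ∧ Y.card ≤ k ∧ g (τ c) ⊆ Y ∧ c ∉ Y ∧
      ∀ i : Fin l, i.val < τ c → ∃ y ∈ Y, y ∉ g i ∧ y i = d i := by
    intro c
    by_cases hc : c ∈ X
    · obtain ⟨Y, h⟩ := P.wit (τ c) (Nat.findGreatest_le _) c (P.sub hc)
        (Nat.findGreatest_spec (P := fun t => c ∉ g t) (Nat.zero_le l) (by simp [P.zero]))
      exact ⟨Y, fun _ => h⟩
    · exact ⟨∅, fun h => absurd h hc⟩
  choose Y hY using hch
  obtain ⟨I, hI, h⟩ := hC X P.sub P.card (X.biUnion Y) (biUnion_subset.2 fun c hc => (hY c hc).1)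
    ((card_biUnion_le_card_mul _ _ _ fun c hc => (hY c hc).2.1).trans
      (Nat.mul_le_mul_right _ P.card))
  have h1 : I.image Fin.val ⊆ (g l).image τ := by
    intro s hs
    obtain ⟨i, hi, rfl⟩ := mem_image.1 hs
    obtain ⟨x, hx, h2, h3⟩ := P.cons i
    have h4 : i.val ≤ τ x := Nat.le_findGreatest (P := fun t => x ∉ g t) i.2.le h2
    have h5 : ¬ i.val < τ x := fun h5 => by
      obtain ⟨y, hy, -, h6⟩ := (hY x hx).2.2.2.2 i h5
      exact h i hi x hx y (mem_biUnion.2 ⟨x, hx, hy⟩) (fun e => (hY x hx).2.2.2.1 (e ▸ hy))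
        (h6.trans h3.symm)
    refine mem_image.2 ⟨x, ?_, by omega⟩
    by_contra h6
    have h7 : l ≤ τ x := Nat.le_findGreatest (P := fun t => x ∉ g t) le_rfl h6
    have := i.2
    omega
  have h2 := (card_le_card h1).trans card_image_le
  rw [card_image_of_injective _ Fin.val_injective] at h2
  have h5 : (g l).card < X.card :=
    card_lt_card (Finset.ssubset_iff_subset_ne.2 ⟨P.le l le_rfl, fun h => hne (h ▸ subset_rfl)⟩)
  have := P.card
  omega

end Pool.Agent.H.MP_96bab1_co
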