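import Mathlib
import Pool.Agent.H.MP_96bab1_co.Count

set_option autoImplicit false

namespace Pool.Agent.H.MP_96bab1_co
open Finset Filter

theorem exists_cover {β : Type} (b0 : β) (Z : Finset β) (m : ℕ) (h : Z.card ≤ m) :
    ∃ p : Fin m → β, ∀ z ∈ Z, ∃ s, p s = z := by
  classical
  obtain ⟨emb⟩ := Function.Embedding.nonempty_of_card_le (α := Z) (β := Fin m) (by simpa using h)
  exact ⟨Function.extend emb Subtype.val (fun _ => b0), fun z hz =>
    ⟨emb ⟨z, hz⟩, emb.injective.extend_apply _ _ _⟩⟩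

theorem card_bad (q k n : ℕ) (hk : 1 ≤ k) (hq : k < q) (a : Fin k → Fin n)
    (b : Fin (k * k) → Fin n) :
    ((univ.filter fun f : Fin n → Fin q => ¬ ∀ s t, b t ≠ a s → f (b t) ≠ f (a s)).card : ℝ)
      ≤ (q : ℝ) ^ n * (1 - 1 / (q : ℝ) ^ (k + k * k)) := by
  classical
  have : Nonempty (Fin k) := ⟨⟨0, hk⟩⟩
  let f0 : Fin n → Fin q := fun w =>
    if ∃ s, a s = w then ⟨(Function.invFun a w).val, (Function.invFun a w).2.trans hq⟩ else ⟨k, hq⟩
  let U : Finset (Fin n) := univ.image a ∪ univ.image b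
  have hU : U.card ≤ k + k * k :=
    (card_union_le _ _).trans (Nat.add_le_add (card_image_le.trans (by simp))
      (card_image_le.trans (by simp)))
  have h1 : (Fintype.piFinset fun w => if w ∈ U then {f0 w} else univ)
      ⊆ univ.filter fun f : Fin n → Fin q => ∀ s t, b t ≠ a s → f (b t) ≠ f (a s) := by
    intro f hf
    refine mem_filter.2 ⟨mem_univ _, fun s t hne h => hne ?_⟩
    have h2 := Fintype.mem_piFinset.1 hf (a s)
    have h3 := Fintype.mem_piFinset.1 hf (b t)
    rw [if_pos (by simp [U]), mem_singleton] at h2 h3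
    rw [h2, h3] at h
    simp only [f0] at h
    rw [if_pos (⟨s, rfl⟩ : ∃ s', a s' = a s)] at h
    split_ifs at h with h4
    · have h5 : Function.invFun a (b t) = Function.invFun a (a s) := Fin.ext (by simpa using h)
      rw [← Function.invFun_eq h4, h5, Function.invFun_eq (f := a) ⟨s, rfl⟩]
    · have h5 := (Function.invFun a (a s)).2
      have h6 := congrArg Fin.val h
      simp only at h6
      omega
  have h2 := card_le_card h1
  rw [Fintype.card_piFinset] at h2
  simp only [apply_ite Finset.card, card_singleton, card_univ, Fintype.card_fin] at h2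
  rw [prod_ite, prod_const_one, one_mul, prod_const] at h2
  have h3 : (univ.filter fun w => w ∉ U).card + U.card = n := by
    have := card_filter_add_card_filter_not (s := (univ : Finset (Fin n))) (fun w => w ∈ U)
    simp only [filter_mem_eq_inter, univ_inter, card_univ, Fintype.card_fin] at this
    omega
  have h4 := card_filter_add_card_filter_not (s := (univ : Finset (Fin n → Fin q)))
    (fun f => ∀ s t, b t ≠ a s → f (b t) ≠ f (a s))
  simp only [card_univ, Fintype.card_fun, Fintype.card_fin] at h4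
  have hq1 : 1 ≤ q := by omega
  have h5 : q ^ n ≤ (univ.filter fun f : Fin n → Fin q =>
      ∀ s t, b t ≠ a s → f (b t) ≠ f (a s)).card * q ^ (k + k * k) := by
    refine le_trans ?_ (Nat.mul_le_mul_right _ h2)
    rw [← pow_add]
    exact Nat.pow_le_pow_right hq1 (by omega)
  have hqp : (0 : ℝ) < (q : ℝ) ^ (k + k * k) := by positivity
  have h6 : (q : ℝ) ^ n / (q : ℝ) ^ (k + k * k) ≤ (univ.filter fun f : Fin n → Fin q =>
      ∀ s t, b t ≠ a s → f (b t) ≠ f (a s)).card := by
    rw [div_le_iff₀ hqp]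
    exact_mod_cast h5
  have h7 := congrArg (Nat.cast : ℕ → ℝ) h4
  push_cast at h7
  rw [mul_sub, mul_one, mul_one_div]
  linarith

theorem exists_sep (q k : ℕ) (hk : 1 ≤ k) (hq : k < q) : ∃ L : ℕ, 1 ≤ L ∧ ∀ l a : ℕ, 1 ≤ a →
    a * L * k ≤ l → ∃ C : Finset (Fin l → Fin q), Sep k C ∧ C.card = 2 ^ a := by
  classical
  set M := k + k * k with hM
  set r : ℝ := 1 - 1 / (q : ℝ) ^ M with hr
  have hq1 : (1 : ℝ) ≤ (q : ℝ) ^ M := one_le_pow₀ (by exact_mod_cast (by omega : 1 ≤ q))
  have hr0 : 0 ≤ r := by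
    rw [hr, sub_nonneg, div_le_one (by linarith)]
    exact hq1
  have hr1 : r < 1 := by
    rw [hr]
    have : (0 : ℝ) < 1 / (q : ℝ) ^ M := by positivity
    linarith
  obtain ⟨L, hL⟩ := exists_pow_lt_of_lt_one (x := 1 / (2 : ℝ) ^ M) (by positivity) hr1
  have hL' : (2 : ℝ) ^ M * r ^ (L + 1) < 1 := by
    have h1 : r ^ (L + 1) ≤ r ^ L := pow_le_pow_of_le_one hr0 hr1.le (by omega)
    have h2 := h1.trans_lt hL
    rw [lt_div_iff₀ (by positivity)] at h2
    linarith
  refine ⟨L + 1, by omega, fun l a ha hl => ?_⟩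
  set n := 2 ^ a with hn
  set m := a * (L + 1) with hm
  let bad : (Fin k → Fin n) × (Fin (k * k) → Fin n) → Finset (Fin n → Fin q) := fun p =>
    univ.filter fun f : Fin n → Fin q => ¬ ∀ s t, p.2 t ≠ p.1 s → f (p.2 t) ≠ f (p.1 s)
  have hcard : (univ.biUnion fun p => Fintype.piFinset fun _ : Fin m => bad p).card
      < (univ : Finset (Fin m → Fin n → Fin q)).card := by
    refine card_biUnion_le.trans_lt ?_
    have h1 : ∀ p, ((Fintype.piFinset fun _ : Fin m => bad p).card : ℝ) ≤ ((q : ℝ) ^ n * r) ^ m := by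
      intro p
      rw [Fintype.card_piFinset, prod_const, card_univ, Fintype.card_fin, Nat.cast_pow]
      exact pow_le_pow_left₀ (Nat.cast_nonneg _) (card_bad q k n hk hq p.1 p.2) _
    have h2 := sum_le_card_nsmul univ _ _ fun p _ => h1 p
    simp only [card_univ, Fintype.card_prod, Fintype.card_fun, Fintype.card_fin, nsmul_eq_mul,
      ← pow_add] at h2
    have h3 : ((n ^ M : ℕ) : ℝ) * ((q : ℝ) ^ n * r) ^ m < ((q : ℝ) ^ n) ^ m := by
      have h4 : ((n ^ M : ℕ) : ℝ) * ((q : ℝ) ^ n * r) ^ m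
          = ((2 : ℝ) ^ M * r ^ (L + 1)) ^ a * ((q : ℝ) ^ n) ^ m := by
        have h5 : ((n ^ M : ℕ) : ℝ) = ((2 : ℝ) ^ M) ^ a := by
          rw [hn]
          push_cast
          rw [← pow_mul, ← pow_mul, mul_comm]
        have h6 : r ^ m = (r ^ (L + 1)) ^ a := by rw [hm, ← pow_mul, mul_comm]
        rw [h5, mul_pow, mul_pow, h6]
        ring
      rw [h4]
      have hqp : (0 : ℝ) < q := by exact_mod_cast (by omega : 0 < q)
      exact mul_lt_of_lt_one_left (by positivity) (pow_lt_one₀ (by positivity) hL' (by omega))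
    simp only [card_univ, Fintype.card_fun, Fintype.card_fin]
    exact_mod_cast h2.trans_lt h3
  obtain ⟨F, -, hF⟩ := exists_mem_notMem_of_card_lt_card hcard
  have hF' : ∀ (x : Fin k → Fin n) (y : Fin (k * k) → Fin n), ∃ i : Fin m,
      ∀ s t, y t ≠ x s → F i (y t) ≠ F i (x s) := by
    intro x y
    by_contra h
    refine hF (mem_biUnion.2 ⟨(x, y), mem_univ _, Fintype.mem_piFinset.2 fun i => ?_⟩)
    exact mem_filter.2 ⟨mem_univ _, fun h' => h ⟨i, h'⟩⟩
  let word : Fin n → Fin l → Fin q := fun v i =>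
    if h : i.val / k < m then F ⟨i.val / k, h⟩ v else ⟨0, by omega⟩
  have hlt : ∀ (i : Fin m) (s : Fin k), i.val * k + s.val < l := by
    intro i s
    have h1 : (i.val + 1) * k ≤ m * k := Nat.mul_le_mul_right _ i.2
    have := s.2
    rw [add_mul] at h1
    omega
  have hword : ∀ (i : Fin m) (s : Fin k) v, word v ⟨i.val * k + s.val, hlt i s⟩ = F i v := by
    intro i s v
    have h1 : (i.val * k + s.val) / k = i.val := by
      rw [add_comm, Nat.add_mul_div_right _ _ hk, Nat.div_eq_of_lt s.2, zero_add]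
    simp only [word, h1, i.2, dite_true]
  have hinj : Function.Injective word := by
    intro v v' h
    by_contra hne
    obtain ⟨i, hi⟩ := hF' (fun _ => v') (fun _ => v)
    refine hi ⟨0, hk⟩ ⟨0, Nat.mul_pos hk hk⟩ hne ?_
    rw [← hword i ⟨0, hk⟩, ← hword i ⟨0, hk⟩, h]
  refine ⟨univ.image word, fun X hX hXk W hW hWk => ?_, by
    rw [card_image_of_injective _ hinj, card_univ, Fintype.card_fin]⟩
  have hpre : ∀ Z : Finset (Fin l → Fin q), (univ.filter fun v => word v ∈ Z).card ≤ Z.card :=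
    fun Z => card_le_card_of_injOn word (fun v hv => by simpa using hv) hinj.injOn
  obtain ⟨x, hx⟩ := exists_cover (⟨0, by positivity⟩ : Fin n) _ k ((hpre X).trans hXk)
  obtain ⟨y, hy⟩ := exists_cover (⟨0, by positivity⟩ : Fin n) _ (k * k) ((hpre W).trans hWk)
  obtain ⟨i, hi⟩ := hF' x y
  refine ⟨univ.image fun s : Fin k => ⟨i.val * k + s.val, hlt i s⟩, ?_, ?_⟩
  · rw [card_image_of_injective, card_univ, Fintype.card_fin]
    intro s t h
    have := congrArg Fin.val h
    simp only at this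
    exact Fin.ext (by omega)
  · intro i' hi' c hc w hw hne
    obtain ⟨s0, -, rfl⟩ := mem_image.1 hi'
    obtain ⟨v, -, rfl⟩ := mem_image.1 (hX hc)
    obtain ⟨v', -, rfl⟩ := mem_image.1 (hW hw)
    obtain ⟨s, rfl⟩ := hx v (by simpa using hc)
    obtain ⟨t, rfl⟩ := hy v' (by simpa using hw)
    rw [hword, hword]
    exact hi s t fun h => hne (by rw [h])

end Pool.Agent.H.MP_96bab1_co
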